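import Mathlib
import Pool.Agent.MP_e75763_lc.Line
import Pool.Agent.MP_e75763_lc.Levy

/-! All four parts of the question on `ℵ_ω`-free definable groups on the reals. -/

namespace Pool.Agent.Results.MP_e75763_lc.Solved

open Pool.Agent.MP_e75763_lc

theorem result :
    (∀ (G : Type) [AddCommGroup G] (e : G ≃ ℝ),
      (∃ F : ℕ → Set (ℝ × ℝ × ℝ), (∀ n, IsClosed (F n)) ∧
        {p : ℝ × ℝ × ℝ | e.symm p.1 + e.symm p.2.1 = e.symm p.2.2} = ⋃ n, F n) →
      (∀ H : AddSubgroup G, Cardinal.mk H < Cardinal.aleph Ordinal.omega0 → Module.Free ℤ H) →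
      Module.Free ℤ G) ∧
    (∃ M : Set ZFSet.{0}, IsZFC M ∧ Fails cantorCode M (FsigmaIn cantorCode M) ∧
      Fails realCode M (BorelIn realCode M) ∧ Fails realCode M (AnalyticIn realCode M)) ∧
    (∃ M : Set ZFSet.{0}, IsZFC M ∧
      Fails realCode (LR M) (ProjectiveIn realCode (LR M) 3)) := by
  refine ⟨fun G _ e ⟨F, h1, h2⟩ h => ?_, part_b, part_d⟩
  obtain ⟨H, h3, h4⟩ := part_a G e F h1 h2
  refine absurd (h H (Cardinal.mk_le_aleph0.trans_lt ?_)) h4
  rw [← Cardinal.aleph_zero, Cardinal.aleph_lt_aleph]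
  exact Ordinal.omega0_pos

end Pool.Agent.Results.MP_e75763_lc.Solved
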